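import Pool.Agent.H320R2.CT.Rate2

set_option autoImplicit false

open Filter

namespace Pool.Agent.Results.MP_b747bb_pr.ThresholdRates

/-- The probability that a uniformly random graph with vertex set `Fin n` and exactly `M` edges is
`k`-colourable (it is `0` if there is no graph with `M` edges). -/
noncomputable def colProb (k n M : ℕ) : ℝ :=
  (Nat.card {G : SimpleGraph (Fin n) // G.edgeSet.ncard = M ∧ G.Colorable k} : ℝ) /
    (Nat.card {G : SimpleGraph (Fin n) // G.edgeSet.ncard = M} : ℝ)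

/-- For every `k ≥ 3` the `k`-colourability threshold `c = c_k^*` exists (first clause), and for a
natural number `C = C_k`:
* above `c n + C n^(17/18)` edges the probability of `k`-colourability is at most `C n^(-1/36)`;
* for every `ε > 0` and all large `n`, with at most `(c - ε) n` edges it is at least
  `1 - C n^(-1/18)`;
* for every `n` the probability passes from at least `1 - C n^(-1/18)` to at most `C n^(-1/36)`
  within `2 C n^(17/18)` edges around some `m = m(n)`;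
* `c` is the supremum of the numbers `M/n - C n^(-1/18)`, over all `n ≥ 1` and `M` such that a
  random graph with `n` vertices and `M` edges is `k`-colourable with probability `≥ 1/2`. -/
theorem result (k : ℕ) (hk : 3 ≤ k) : ∃ (c : ℝ) (C : ℕ), 0 < C ∧
    (∀ ε : ℝ, 0 < ε →
      Tendsto (fun n : ℕ => colProb k n ⌊(c - ε) * (n : ℝ)⌋₊) atTop (nhds 1) ∧
      Tendsto (fun n : ℕ => colProb k n ⌊(c + ε) * (n : ℝ)⌋₊) atTop (nhds 0)) ∧
    (∀ n M : ℕ, 1 ≤ n → c * n + (C : ℝ) * (n : ℝ) ^ ((17 : ℝ) / 18) ≤ M →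
      colProb k n M ≤ (C : ℝ) * (n : ℝ) ^ (-(1 / 36) : ℝ)) ∧
    (∀ ε : ℝ, 0 < ε → ∃ n0 : ℕ, ∀ n M : ℕ, n0 ≤ n → (M : ℝ) ≤ (c - ε) * n →
      1 - (C : ℝ) * (n : ℝ) ^ (-(1 / 18) : ℝ) ≤ colProb k n M) ∧
    (∀ n : ℕ, 1 ≤ n → ∃ m : ℕ,
      (∀ M : ℕ, (M : ℝ) + (C : ℝ) * (n : ℝ) ^ ((17 : ℝ) / 18) ≤ m →
        1 - (C : ℝ) * (n : ℝ) ^ (-(1 / 18) : ℝ) ≤ colProb k n M) ∧
      (∀ M : ℕ, (m : ℝ) + (C : ℝ) * (n : ℝ) ^ ((17 : ℝ) / 18) ≤ M →
        colProb k n M ≤ (C : ℝ) * (n : ℝ) ^ (-(1 / 36) : ℝ))) ∧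
    IsLUB {x : ℝ | ∃ n M : ℕ, 1 ≤ n ∧ 1 / 2 ≤ colProb k n M ∧
      x = (M : ℝ) / n - (C : ℝ) * (n : ℝ) ^ (-(1 / 18) : ℝ)} c :=
  Pool.Agent.H320R2.CT.Rate.main k hk

end Pool.Agent.Results.MP_b747bb_pr.ThresholdRates
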